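import Pool.Agent.H548.LU.Defs

/-!
Part F of project LU (MP_1da87e_co): the deterministic counting argument `StmtFinal`.
-/

namespace Pool.Agent.R928.LUF

open Finset Classical Pool.Agent.H548.LU

noncomputable section

variable {k d N : ℕ}

/-- the degree of a vertex of side A is at most `D` -/
theorem deg_le {D : ℝ} {X : Finset (Ed k d N)} (hD : 0 ≤ D) (hX : DegX k d N D X)
    (a : Lab k d N) : ((univ.filter fun b : Lab k d N => (a, b) ∈ X).card : ℝ) ≤ D := by
  set P : Finset (Fin d → Fin k) :=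
    Fintype.piFinset (fun j => ({(a.1 j).1, (a.1 j).2} : Finset (Fin k))) with hP
  have hPc : (P.card : ℝ) ≤ 2 ^ d := by
    have h1 : P.card ≤ 2 ^ d := by
      rw [hP, Fintype.card_piFinset]
      calc ∏ j, ({(a.1 j).1, (a.1 j).2} : Finset (Fin k)).card
          ≤ ∏ _j : Fin d, 2 := prod_le_prod' fun j _ => card_le_two
        _ = 2 ^ d := by simp
    exact_mod_cast h1
  have hsub : (univ.filter fun b : Lab k d N => (a, b) ∈ X) ⊆
      P.biUnion (fun z => univ.filter fun b : Lab k d N => (a, b) ∈ X ∧ ∀ j, zc b j = z j) := by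
    intro b hb
    rw [mem_filter] at hb
    rw [mem_biUnion]
    refine ⟨fun j => zc b j, ?_, ?_⟩
    · rw [hP, Fintype.mem_piFinset]
      intro j
      have h2 := hX.sub hb.2
      rw [Pot, mem_filter] at h2
      have h3 := h2.2 j
      simp only at h3
      rcases h3 with h | h
      · rw [h]; exact mem_insert_self _ _
      · rw [h]; exact mem_insert_of_mem (mem_singleton_self _)
    · rw [mem_filter]
      exact ⟨mem_univ _, hb.2, fun j => rfl⟩
  have h2d : (0 : ℝ) < 2 ^ d := by positivity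
  calc ((univ.filter fun b : Lab k d N => (a, b) ∈ X).card : ℝ)
      ≤ ((∑ z ∈ P, (univ.filter fun b : Lab k d N =>
          (a, b) ∈ X ∧ ∀ j, zc b j = z j).card : ℕ) : ℝ) := by
        exact_mod_cast (card_le_card hsub).trans card_biUnion_le
    _ = ∑ z ∈ P, ((univ.filter fun b : Lab k d N =>
          (a, b) ∈ X ∧ ∀ j, zc b j = z j).card : ℝ) := by push_cast; rfl
    _ ≤ ∑ _z ∈ P, D / 2 ^ d := by
        refine sum_le_sum fun z _ => ?_
        rw [le_div_iff₀ h2d]
        exact hX.degA a z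
    _ = P.card * (D / 2 ^ d) := by rw [sum_const, nsmul_eq_mul]
    _ ≤ 2 ^ d * (D / 2 ^ d) := by
        refine mul_le_mul_of_nonneg_right hPc (by positivity)
    _ = D := by field_simp

/-- at most `D * |U|` edges inside `U` -/
theorem inn_card_le {D : ℝ} {X : Finset (Ed k d N)} (hD : 0 ≤ D) (hX : DegX k d N D X)
    (U : Finset (Vx k d N)) : ((inn X U).card : ℝ) ≤ D * U.card := by
  set A : Finset (Lab k d N) := univ.filter fun a => Sum.inl a ∈ U with hA
  have hAc : A.card ≤ U.card := by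
    refine card_le_card_of_injOn (fun a => Sum.inl a) ?_ ?_
    · intro a ha
      rw [hA] at ha
      simpa using ha
    · intro a _ b _ h
      exact Sum.inl_injective h
  have hsub : inn X U ⊆ A.biUnion (fun a =>
      (univ.filter fun b : Lab k d N => (a, b) ∈ X).image fun b => (a, b)) := by
    intro e he
    rw [inn, mem_filter] at he
    rw [mem_biUnion]
    refine ⟨e.1, ?_, ?_⟩
    · rw [hA, mem_filter]; exact ⟨mem_univ _, he.2.1⟩
    · rw [mem_image]
      exact ⟨e.2, by rw [mem_filter]; exact ⟨mem_univ _, he.1⟩, rfl⟩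
  calc ((inn X U).card : ℝ)
      ≤ ((∑ a ∈ A, ((univ.filter fun b : Lab k d N => (a, b) ∈ X).image
          fun b => ((a, b) : Ed k d N)).card : ℕ) : ℝ) := by
        exact_mod_cast (card_le_card hsub).trans card_biUnion_le
    _ = ∑ a ∈ A, (((univ.filter fun b : Lab k d N => (a, b) ∈ X).image
          fun b => ((a, b) : Ed k d N)).card : ℝ) := by push_cast; rfl
    _ ≤ ∑ _a ∈ A, D := by
        refine sum_le_sum fun a _ => ?_
        exact le_trans (by exact_mod_cast card_image_le) (deg_le hD hX a)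
    _ = A.card * D := by rw [sum_const, nsmul_eq_mul]
    _ ≤ U.card * D := by
        refine mul_le_mul_of_nonneg_right (by exact_mod_cast hAc) hD
    _ = D * U.card := by ring

/-- a special part: a placed copy of a special guest -/
structure Pl (X : Finset (Ed k d N)) (β : Finset (Vx k d N) → Ed k d N → Bool)
    (lev : Finset (Vx k d N) → Fin d) (κ : ℝ) {n : ℕ} (Z : SimpleGraph (Fin n))
    (φ : Fin n → Vx k d N) (W : Finset (Vx k d N)) (S : Finset (Ed k d N))
    (ph : Vx k d N → Vx k d N) (ty : Bool) : Prop where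
  sub : S ⊆ inn X W
  injOn : Set.InjOn ph (W : Set (Vx k d N))
  img : ∀ v, (∃ w ∈ W, ph w = v) ↔ ∃ x, φ x = v
  card : W.card = n
  adj : ∀ e ∈ S, (gr X).Adj (ph (Sum.inl e.1)) (ph (Sum.inr e.2))
  cov : ∀ x y, Z.Adj x y → ∃ e ∈ S,
    (φ x = ph (Sum.inl e.1) ∧ φ y = ph (Sum.inr e.2)) ∨
    (φ y = ph (Sum.inl e.1) ∧ φ x = ph (Sum.inr e.2))
  tyh : ty = true → S = (inn X W).filter fun e => β W e = true
  tyg : ty = false → κ * (W.card : ℝ) < ((inn X W).card : ℝ) ∧
    S = (inn X W).filter fun e => β (W ∩ Wset (lev W) (zc e.2 (lev W))) e = false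

theorem exists_pl {X : Finset (Ed k d N)} {β : Finset (Vx k d N) → Ed k d N → Bool}
    {lev : Finset (Vx k d N) → Fin d} {κ : ℝ} {n : ℕ} {Z : SimpleGraph (Fin n)}
    {φ : Fin n → Vx k d N} {W : Finset (Vx k d N)} {S : Finset (Ed k d N)}
    (hom : ∀ x y, Z.Adj x y → (gr X).Adj (φ x) (φ y)) (inj : Function.Injective φ)
    (hS : Special X β lev κ W S)
    (hψ : Nonempty (Z ≃g (gr S).induce (W : Set (Vx k d N)))) :
    ∃ ph ty, Pl X β lev κ Z φ W S ph ty := by
  obtain ⟨ψ⟩ := hψ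
  have hsub : S ⊆ inn X W := by
    rcases hS with h | h
    · rw [h.2]; exact filter_subset _ _
    · rw [h]; exact filter_subset _ _
  have hW : ∀ e ∈ S, Sum.inl e.1 ∈ W ∧ Sum.inr e.2 ∈ W := by
    intro e he
    have := hsub he
    rw [inn, mem_filter] at this
    exact this.2
  set ph : Vx k d N → Vx k d N := fun w =>
    if h : w ∈ (W : Set (Vx k d N)) then φ (ψ.symm ⟨w, h⟩) else w with hph
  have phW : ∀ w (h : w ∈ (W : Set (Vx k d N))), ph w = φ (ψ.symm ⟨w, h⟩) := by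
    intro w h; rw [hph]; simp only; rw [dif_pos h]
  have phψ : ∀ x, ph (ψ x : Vx k d N) = φ x := by
    intro x
    rw [phW _ (ψ x).2]
    have : (⟨(ψ x : Vx k d N), (ψ x).2⟩ : (W : Set (Vx k d N))) = ψ x := rfl
    rw [this, RelIso.symm_apply_apply]
  have key : ∀ ty : Bool, (ty = true → S = (inn X W).filter fun e => β W e = true) →
      (ty = false → κ * (W.card : ℝ) < ((inn X W).card : ℝ) ∧
        S = (inn X W).filter fun e => β (W ∩ Wset (lev W) (zc e.2 (lev W))) e = false) →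
      Pl X β lev κ Z φ W S ph ty := by
    intro ty h1 h2
    refine ⟨hsub, ?_, ?_, ?_, ?_, ?_, h1, h2⟩
    · intro w hw w' hw' h
      rw [phW w hw, phW w' hw'] at h
      have h3 := ψ.symm.injective (inj h)
      exact congrArg Subtype.val h3
    · intro v
      constructor
      · rintro ⟨w, hw, rfl⟩
        exact ⟨_, (phW w hw).symm⟩
      · rintro ⟨x, rfl⟩
        exact ⟨ψ x, (ψ x).2, phψ x⟩
    · have h3 := Fintype.card_congr ψ.toEquiv
      rw [Fintype.card_fin] at h3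
      rw [h3]
      simp
    · intro e he
      have hadj : ((gr S).induce (W : Set (Vx k d N))).Adj ⟨Sum.inl e.1, (hW e he).1⟩
          ⟨Sum.inr e.2, (hW e he).2⟩ := by
        rw [SimpleGraph.comap_adj]
        exact Or.inl ⟨e, he, rfl, rfl⟩
      have h3 := ψ.symm.map_rel_iff.2 hadj
      rw [phW _ (hW e he).1, phW _ (hW e he).2]
      exact hom _ _ h3
    · intro x y hxy
      have h3 := ψ.map_rel_iff.2 hxy
      rw [SimpleGraph.comap_adj] at h3
      rcases h3 with ⟨e, he, h4, h5⟩ | ⟨e, he, h4, h5⟩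
      · refine ⟨e, he, Or.inl ⟨?_, ?_⟩⟩
        · rw [← phψ x]; exact congrArg ph h4
        · rw [← phψ y]; exact congrArg ph h5
      · refine ⟨e, he, Or.inr ⟨?_, ?_⟩⟩
        · rw [← phψ y]; exact congrArg ph h4
        · rw [← phψ x]; exact congrArg ph h5
  rcases hS with h | h
  · exact ⟨ph, false, key false (fun h' => by cases h') (fun _ => h)⟩
  · exact ⟨ph, true, key true (fun _ => h) (fun h' => by cases h')⟩

/-- the edges of `X` covered by a part -/
def Kov (X : Finset (Ed k d N)) {n : ℕ} (Z : SimpleGraph (Fin n))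
    (φ : Fin n → Vx k d N) : Finset (Ed k d N) :=
  X.filter fun e => ∃ x y, Z.Adj x y ∧ φ x = Sum.inl e.1 ∧ φ y = Sum.inr e.2

theorem kov_harmless (X : Finset (Ed k d N)) {n : ℕ} (Z : SimpleGraph (Fin n))
    (φ : Fin n → Vx k d N) : (Kov X Z φ).card ≤ Z.edgeSet.ncard := by
  rw [Set.ncard_eq_toFinset_card']
  refine card_le_card_of_forall_subsingleton
    (fun e s => ∃ x y, s = s(x, y) ∧ φ x = Sum.inl e.1 ∧ φ y = Sum.inr e.2) ?_ ?_
  · intro e he
    rw [Kov, mem_filter] at he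
    obtain ⟨-, x, y, hxy, h1, h2⟩ := he
    refine ⟨s(x, y), ?_, x, y, rfl, h1, h2⟩
    rw [Set.mem_toFinset, SimpleGraph.mem_edgeSet]
    exact hxy
  · intro s _ e he e' he'
    obtain ⟨-, x, y, h1, h2, h3⟩ := he
    obtain ⟨-, x', y', h1', h2', h3'⟩ := he'
    rw [h1] at h1'
    rw [Sym2.eq_iff] at h1'
    rcases h1' with ⟨h4, h5⟩ | ⟨h4, h5⟩
    · subst h4; subst h5
      rw [h2] at h2'; rw [h3] at h3'
      exact Prod.ext (Sum.inl_injective h2') (Sum.inr_injective h3')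
    · subst h4; subst h5
      rw [h2] at h3'
      cases h3'

theorem kov_special {X : Finset (Ed k d N)} {β : Finset (Vx k d N) → Ed k d N → Bool}
    {lev : Finset (Vx k d N) → Fin d} {κ : ℝ} {n : ℕ} {Z : SimpleGraph (Fin n)}
    {φ : Fin n → Vx k d N} {W : Finset (Vx k d N)} {S : Finset (Ed k d N)}
    {ph : Vx k d N → Vx k d N} {ty : Bool} (hP : Pl X β lev κ Z φ W S ph ty) :
    ((Kov X Z φ).filter fun e => ¬ (e ∈ S ∧ ph (Sum.inl e.1) = Sum.inl e.1 ∧
      ph (Sum.inr e.2) = Sum.inr e.2)).card ≤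
    ((inn X W).filter fun e => ¬ (ph (Sum.inl e.1) = Sum.inl e.1 ∧
      ph (Sum.inr e.2) = Sum.inr e.2) ∧
      (gr X).Adj (ph (Sum.inl e.1)) (ph (Sum.inr e.2))).card := by
  refine card_le_card_of_forall_subsingleton
    (fun e e' => (Sum.inl e.1 = ph (Sum.inl e'.1) ∧ Sum.inr e.2 = ph (Sum.inr e'.2)) ∨
      (Sum.inr e.2 = ph (Sum.inl e'.1) ∧ Sum.inl e.1 = ph (Sum.inr e'.2))) ?_ ?_
  · intro e he
    rw [mem_filter, Kov, mem_filter] at he
    obtain ⟨⟨-, x, y, hxy, h1, h2⟩, h3⟩ := he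
    obtain ⟨e', he', h4⟩ := hP.cov x y hxy
    rw [h1, h2] at h4
    refine ⟨e', ?_, h4⟩
    rw [mem_filter]
    refine ⟨hP.sub he', ?_, hP.adj e' he'⟩
    rintro ⟨h5, h6⟩
    rw [h5, h6] at h4
    rcases h4 with ⟨h7, h8⟩ | ⟨h7, h8⟩
    · have h9 : e = e' := Prod.ext (Sum.inl_injective h7) (Sum.inr_injective h8)
      subst h9
      exact h3 ⟨he', h5, h6⟩
    · cases h7
  · intro e' _ e1 he1 e2 he2
    obtain ⟨-, h1⟩ := he1
    obtain ⟨-, h2⟩ := he2
    rcases h1 with ⟨h1, h1'⟩ | ⟨h1, h1'⟩ <;> rcases h2 with ⟨h2, h2'⟩ | ⟨h2, h2'⟩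
    · rw [← h1] at h2; rw [← h1'] at h2'
      exact (Prod.ext (Sum.inl_injective h2) (Sum.inr_injective h2')).symm
    · rw [← h1] at h2; cases h2
    · rw [← h1] at h2; cases h2
    · rw [← h1] at h2; rw [← h1'] at h2'
      exact (Prod.ext (Sum.inl_injective h2') (Sum.inr_injective h2)).symm

/-- the data of a layer -/
theorem layer_data {X : Finset (Ed k d N)} {β : Finset (Vx k d N) → Ed k d N → Bool}
    {lev : Finset (Vx k d N) → Fin d} {κ : ℝ} (L : Layer (gr X)) (sp : Fin L.r → Prop)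
    (W : Fin L.r → Finset (Vx k d N)) (S : Fin L.r → Finset (Ed k d N))
    (ph : Fin L.r → Vx k d N → Vx k d N) (ty : Fin L.r → Bool)
    (hsp : ∀ i, sp i → Pl X β lev κ (L.Z i) (L.φ i) (W i) (S i) (ph i) (ty i)) :
    ∃ f : Vx k d N → Cell k d N,
      (∀ i, sp i → ∀ e : Ed k d N, Sum.inl e.1 ∈ W i → Sum.inr e.2 ∈ W i →
        ph i (Sum.inl e.1) = Sum.inl e.1 → ph i (Sum.inr e.2) = Sum.inr e.2 →
        lit f e = some (if ty i = true then (W i, true) else
          (W i ∩ Wset (lev (W i)) (zc e.2 (lev (W i))), false))) ∧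
      (∀ (e : Ed k d N) (W' : Finset (Vx k d N)) (c : Bool), lit f e = some (W', c) →
        ∃ i, sp i ∧ Sum.inl e.1 ∈ W i ∧ Sum.inr e.2 ∈ W i ∧
          ph i (Sum.inl e.1) = Sum.inl e.1 ∧ ph i (Sum.inr e.2) = Sum.inr e.2 ∧ ty i = c ∧
          (c = true → W' = W i) ∧
          (c = false → W' = W i ∩ Wset (lev (W i)) (zc e.2 (lev (W i))))) := by
  -- the part containing a vertex
  set part : Vx k d N → Option (Fin L.r) := fun v =>
    if h : ∃ i, sp i ∧ ∃ x, L.φ i x = v then some h.choose else none with hpart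
  have part_some : ∀ v i, part v = some i ↔ (sp i ∧ ∃ x, L.φ i x = v) := by
    intro v i
    constructor
    · intro h
      rw [hpart] at h
      simp only at h
      split_ifs at h with h1
      have h2 := h1.choose_spec
      rw [Option.some.injEq] at h
      rw [h] at h2
      exact h2
    · rintro ⟨h1, x, h2⟩
      have h3 : ∃ i, sp i ∧ ∃ x, L.φ i x = v := ⟨i, h1, x, h2⟩
      have h4 : part v = some h3.choose := by rw [hpart]; simp only; rw [dif_pos h3]
      rw [h4, Option.some.injEq]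
      obtain ⟨y, hy⟩ := h3.choose_spec.2
      have h5 : (⟨h3.choose, y⟩ : (i : Fin L.r) × Fin (L.n i)) = ⟨i, x⟩ := by
        apply L.inj
        change L.φ _ y = L.φ i x
        rw [hy, h2]
      exact congrArg Sigma.fst h5
  have part_W : ∀ v i, part v = some i ↔ (sp i ∧ ∃ w ∈ W i, ph i w = v) := by
    intro v i
    rw [part_some]
    constructor
    · rintro ⟨h1, h2⟩
      exact ⟨h1, ((hsp i h1).img v).2 h2⟩
    · rintro ⟨h1, h2⟩
      exact ⟨h1, ((hsp i h1).img v).1 h2⟩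
  set lab : Fin L.r → Vx k d N → Vx k d N := fun i v =>
    if h : (W i).Nonempty then ph i h.choose else v with hlab
  set inv : Fin L.r → Vx k d N → Vx k d N := fun i v =>
    if h : ∃ w ∈ W i, ph i w = v then h.choose else v with hinv
  set f : Vx k d N → Cell k d N := fun v =>
    match part v with
    | none => (v, v, none)
    | some i => (lab i v, inv i v, if ty i = true then some none else some (some (lev (W i))))
    with hf
  have f_none : ∀ v, part v = none → f v = (v, v, none) := by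
    intro v h; rw [hf]; simp only; rw [h]
  have f_some : ∀ v i, part v = some i → f v = (lab i v, inv i v,
      if ty i = true then some none else some (some (lev (W i)))) := by
    intro v i h; rw [hf]; simp only; rw [h]
  -- facts about lab and inv
  have lab_part : ∀ v i, part v = some i → part (lab i v) = some i := by
    intro v i h
    obtain ⟨h1, w, hw, h2⟩ := (part_W v i).1 h
    have hne : (W i).Nonempty := ⟨w, hw⟩
    have h3 : lab i v = ph i hne.choose := by rw [hlab]; simp only; rw [dif_pos hne]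
    rw [h3, part_W]
    exact ⟨h1, _, hne.choose_spec, rfl⟩
  have lab_same : ∀ u v i, part u = some i → part v = some i → lab i u = lab i v := by
    intro u v i hu hv
    obtain ⟨h1, w, hw, h2⟩ := (part_W v i).1 hv
    have hne : (W i).Nonempty := ⟨w, hw⟩
    rw [hlab]; simp only; rw [dif_pos hne, dif_pos hne]
  have inv_spec : ∀ v i, part v = some i → inv i v ∈ W i ∧ ph i (inv i v) = v := by
    intro v i h
    obtain ⟨h1, h2⟩ := (part_W v i).1 h
    have h3 : inv i v = h2.choose := by rw [hinv]; simp only; rw [dif_pos h2]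
    rw [h3]
    exact h2.choose_spec
  have part_eq : ∀ u v i, part v = some i → (f u).1 = (f v).1 → part u = some i := by
    intro u v i hv h
    rw [f_some v i hv] at h
    rcases hu : part u with _ | i'
    · rw [f_none u hu] at h
      simp only at h
      have h2 := lab_part v i hv
      rw [← h, hu] at h2
      cases h2
    · rw [f_some u i' hu] at h
      simp only at h
      have h2 := lab_part v i hv
      have h3 := lab_part u i' hu
      rw [h, h2] at h3
      exact h3.symm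
  have fib_eq : ∀ v i, part v = some i → fib f v = W i := by
    intro v i hv
    ext w
    rw [fib, mem_image]
    constructor
    · rintro ⟨u, hu, h1⟩
      rw [mem_filter] at hu
      have h2 := part_eq u v i hv hu.2
      rw [f_some u i h2] at h1
      simp only at h1
      rw [← h1]
      exact (inv_spec u i h2).1
    · intro hw
      have hspi := ((part_W v i).1 hv).1
      have h2 : part (ph i w) = some i := (part_W _ i).2 ⟨hspi, w, hw, rfl⟩
      refine ⟨ph i w, ?_, ?_⟩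
      · rw [mem_filter]
        refine ⟨mem_univ _, ?_⟩
        rw [f_some _ i h2, f_some v i hv]
        exact lab_same _ _ i h2 hv
      · rw [f_some _ i h2]
        simp only
        have h3 := inv_spec _ i h2
        exact (hsp i hspi).injOn (by exact_mod_cast h3.1) (by exact_mod_cast hw) h3.2
  refine ⟨f, ?_, ?_⟩
  · intro i hi e h1 h2 h3 h4
    have p1 : part (Sum.inl e.1) = some i := (part_W _ i).2 ⟨hi, _, h1, h3⟩
    have p2 : part (Sum.inr e.2) = some i := (part_W _ i).2 ⟨hi, _, h2, h4⟩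
    have i1 : inv i (Sum.inl e.1) = Sum.inl e.1 := by
      have h5 := inv_spec _ i p1
      exact (hsp i hi).injOn (by exact_mod_cast h5.1) (by exact_mod_cast h1) (h5.2.trans h3.symm)
    have i2 : inv i (Sum.inr e.2) = Sum.inr e.2 := by
      have h5 := inv_spec _ i p2
      exact (hsp i hi).injOn (by exact_mod_cast h5.1) (by exact_mod_cast h2) (h5.2.trans h4.symm)
    have hc : (f (Sum.inl e.1)).1 = (f (Sum.inr e.2)).1 ∧
        (f (Sum.inl e.1)).2.1 = Sum.inl e.1 ∧ (f (Sum.inr e.2)).2.1 = Sum.inr e.2 := by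
      rw [f_some _ i p1, f_some _ i p2]
      exact ⟨lab_same _ _ i p1 p2, i1, i2⟩
    rw [lit, if_pos hc]
    rw [fib_eq _ i p1]
    have h5 : (f (Sum.inl e.1)).2.2 = if ty i = true then some none else
        some (some (lev (W i))) := by rw [f_some _ i p1]
    rw [h5]
    by_cases hty : ty i = true
    · rw [if_pos hty, if_pos hty]
    · rw [if_neg hty, if_neg hty]
  · intro e W' c h
    rw [lit] at h
    split_ifs at h with hc
    obtain ⟨hc1, hc2, hc3⟩ := hc
    rcases p1 : part (Sum.inl e.1) with _ | i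
    · rw [f_none _ p1] at h
      simp at h
    · have p2 : part (Sum.inr e.2) = some i := part_eq _ _ i p1 hc1.symm
      rw [f_some _ i p1] at hc2
      rw [f_some _ i p2] at hc3
      simp only at hc2 hc3
      have h1 := inv_spec _ i p1
      have h2 := inv_spec _ i p2
      rw [hc2] at h1
      rw [hc3] at h2
      have h5 : (f (Sum.inl e.1)).2.2 = if ty i = true then some none else
        some (some (lev (W i))) := by rw [f_some _ i p1]
      rw [h5, fib_eq _ i p1] at h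
      refine ⟨i, ((part_W _ i).1 p1).1, h1.1, h2.1, h1.2, h2.2, ?_⟩
      by_cases hty : ty i = true
      · rw [if_pos hty] at h
        simp only [Option.some.injEq, Prod.mk.injEq] at h
        rw [← h.2]
        exact ⟨hty, fun _ => h.1.symm, fun h' => by cases h'⟩
      · rw [if_neg hty] at h
        simp only [Option.some.injEq, Prod.mk.injEq] at h
        rw [← h.2]
        refine ⟨?_, fun h' => (by cases h'), fun _ => h.1.symm⟩
        simpa using hty

/-- the edges in an h-part and a piece of the g-part `U`, both fixing the end points -/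
def Gset (X : Finset (Ed k d N)) (L : Layer (gr X)) (sp : Fin L.r → Prop)
    (W : Fin L.r → Finset (Vx k d N)) (ph : Fin L.r → Vx k d N → Vx k d N)
    (ty : Fin L.r → Bool) (U : Finset (Vx k d N)) (j : Fin d) : Finset (Ed k d N) :=
  X.filter fun e => ∃ i, sp i ∧ ty i = true ∧ W i = U ∩ Wset j (zc e.2 j) ∧
    Sum.inl e.1 ∈ W i ∧ Sum.inr e.2 ∈ W i ∧
    ph i (Sum.inl e.1) = Sum.inl e.1 ∧ ph i (Sum.inr e.2) = Sum.inr e.2

theorem mem_Wset_inr {b : Lab k d N} {j : Fin d} {i : Fin k}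
    (h : (Sum.inr b : Vx k d N) ∈ Wset j i) : zc b j = i := by
  rw [Wset, mem_filter] at h
  rcases h.2 with ⟨a, h1, -⟩ | ⟨b', h1, h2⟩
  · cases h1
  · have := Sum.inr_injective h1
    rw [this]; exact h2

theorem gset_card {X : Finset (Ed k d N)} {β : Finset (Vx k d N) → Ed k d N → Bool}
    {lev : Finset (Vx k d N) → Fin d} {κ D ρ₁ ρ₂ τ : ℝ} (L : Layer (gr X)) (sp : Fin L.r → Prop)
    (W : Fin L.r → Finset (Vx k d N)) (S : Fin L.r → Finset (Ed k d N))
    (ph : Fin L.r → Vx k d N → Vx k d N) (ty : Fin L.r → Bool)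
    (hsp : ∀ i, sp i → Pl X β lev κ (L.Z i) (L.φ i) (W i) (S i) (ph i) (ty i))
    (hrig : ∀ (W : Finset (Vx k d N)) (φ : Vx k d N → Vx k d N),
      Set.InjOn φ (W : Set (Vx k d N)) →
      (((inn X W).filter fun e => ¬ (φ (Sum.inl e.1) = Sum.inl e.1 ∧
        φ (Sum.inr e.2) = Sum.inr e.2) ∧
        (gr X).Adj (φ (Sum.inl e.1)) (φ (Sum.inr e.2))).card : ℝ) ≤ ρ₁ * D * W.card)
    (hqu : ∀ W M : Finset (Vx k d N), M ⊆ W →
      ρ₂ * D * (W.card : ℝ) < ((inn X W \ inn X M).card : ℝ) →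
      ρ₁ * D * (W.card : ℝ) < (((inn X W \ inn X M).filter fun e => β W e = true).card : ℝ))
    (U : Finset (Vx k d N)) (j : Fin d) (hU : ¬ Bad X U j D ρ₂ τ) :
    ((Gset X L sp W ph ty U j).card : ℝ) ≤ τ * ((inn X U).card : ℝ) := by
  by_contra hcon
  push Not at hcon
  apply hU
  set C : Finset (Fin k) := univ.filter fun i => ∃ q, sp q ∧ ty q = true ∧
    W q = U ∩ Wset j i ∧ ∃ e : Ed k d N, zc e.2 j = i ∧ Sum.inr e.2 ∈ W q with hC
  set M : Fin k → Finset (Vx k d N) := fun i => (U ∩ Wset j i).filter fun v =>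
    ∃ q, sp q ∧ ty q = true ∧ W q = U ∩ Wset j i ∧ ph q v = v with hM
  refine ⟨C, M, ?_, ?_, ?_, ?_⟩
  · intro i _
    exact filter_subset _ _
  · intro i hi i' hi' hne
    rw [Finset.disjoint_left]
    intro v hv hv'
    rw [hM] at hv hv'
    simp only [mem_filter] at hv hv'
    obtain ⟨hvU, q, hq, hqt, hqW, hqv⟩ := hv
    obtain ⟨hvU', q', hq', hqt', hqW', hqv'⟩ := hv'
    have h1 : ∃ x, L.φ q x = v := ((hsp q hq).img v).1 ⟨v, by rw [hqW]; exact hvU, hqv⟩
    have h2 : ∃ x, L.φ q' x = v := ((hsp q' hq').img v).1 ⟨v, by rw [hqW']; exact hvU', hqv'⟩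
    obtain ⟨x, hx⟩ := h1
    obtain ⟨x', hx'⟩ := h2
    have h5 : (⟨q, x⟩ : (i : Fin L.r) × Fin (L.n i)) = ⟨q', x'⟩ := by
      apply L.inj
      change L.φ _ x = L.φ _ x'
      rw [hx, hx']
    have h6 : q = q' := congrArg Sigma.fst h5
    subst h6
    rw [hqW] at hqW'
    rw [hC, mem_filter] at hi
    obtain ⟨-, q0, -, -, h7, e, h8, h9⟩ := hi
    rw [h7, hqW', mem_inter] at h9
    have h10 := mem_Wset_inr h9.2
    exact hne (h8.symm.trans h10)
  · intro i hi
    by_contra h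
    push Not at h
    have hMs : M i ⊆ U ∩ Wset j i := filter_subset _ _
    have hinn : inn X (M i) ⊆ inn X (U ∩ Wset j i) := by
      intro e he
      rw [inn, mem_filter] at he ⊢
      exact ⟨he.1, hMs he.2.1, hMs he.2.2⟩
    have hcd : ((inn X (U ∩ Wset j i) \ inn X (M i)).card : ℝ) =
        ((inn X (U ∩ Wset j i)).card : ℝ) - ((inn X (M i)).card : ℝ) := by
      rw [card_sdiff_of_subset hinn, Nat.cast_sub (card_le_card hinn)]
    rw [← hcd] at h
    have h1 := hqu _ _ hMs h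
    rw [hC, mem_filter] at hi
    obtain ⟨-, q, hq, hqt, hqW, -⟩ := hi
    have h2 := hrig (W q) (ph q) (hsp q hq).injOn
    rw [hqW] at h2
    refine absurd (lt_of_lt_of_le h1 (le_trans ?_ h2)) (lt_irrefl _)
    refine Nat.cast_le.2 (card_le_card ?_)
    intro e he
    rw [mem_filter, mem_sdiff] at he
    obtain ⟨⟨he1, he2⟩, he3⟩ := he
    rw [mem_filter]
    refine ⟨he1, ?_, ?_⟩
    · rintro ⟨h3, h4⟩
      apply he2
      rw [inn, mem_filter] at he1 ⊢
      refine ⟨he1.1, ?_, ?_⟩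
      · rw [hM]; simp only [mem_filter]
        exact ⟨he1.2.1, q, hq, hqt, hqW, h3⟩
      · rw [hM]; simp only [mem_filter]
        exact ⟨he1.2.2, q, hq, hqt, hqW, h4⟩
    · apply (hsp q hq).adj
      rw [(hsp q hq).tyh hqt, mem_filter, hqW]
      exact ⟨he1, he3⟩
  · refine le_trans hcon.le ?_
    have hsub : Gset X L sp W ph ty U j ⊆ C.biUnion fun i => inn X (U ∩ Wset j i) := by
      intro e he
      rw [Gset, mem_filter] at he
      obtain ⟨heX, q, hq, hqt, hqW, h1, h2, h3, h4⟩ := he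
      rw [mem_biUnion]
      refine ⟨zc e.2 j, ?_, ?_⟩
      · rw [hC, mem_filter]
        exact ⟨mem_univ _, q, hq, hqt, hqW, e, rfl, h2⟩
      · rw [inn, mem_filter, ← hqW]
        exact ⟨heX, h1, h2⟩
    have h1 := (card_le_card hsub).trans card_biUnion_le
    exact_mod_cast h1

theorem sum_n_le {V : Type} [Fintype V] {H : SimpleGraph V} (L : Layer H) :
    ∑ i, L.n i ≤ Fintype.card V := by
  have h := Fintype.card_le_of_injective _ L.inj
  rw [Fintype.card_sigma] at h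
  simpa using h

theorem stmtFinal : StmtFinal := by
  intro t k d N m0 D ρ₁ ρ₂ δ τ X β lev hn hD hρ₁ hρ₂ hδ hτ hX hβ hlev hnum Ly hLy
  by_contra hcon
  -- every edge of `X` is covered by some part
  have hcov : ∀ e ∈ X, ∃ ℓ, ∃ i, e ∈ Kov X ((Ly ℓ).Z i) ((Ly ℓ).φ i) := by
    intro e he
    by_contra h1
    push Not at h1
    apply hcon
    refine ⟨e, he, fun ℓ => ⟨?_, ?_⟩⟩
    · rintro ⟨i, x, y, h2, h3, h4⟩
      apply h1 ℓ i
      rw [Kov, mem_filter]
      exact ⟨he, x, y, h2, h3, h4⟩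
    · rintro ⟨i, x, y, h2, h3, h4⟩
      apply h1 ℓ i
      rw [Kov, mem_filter]
      exact ⟨he, y, x, h2.symm, h4, h3⟩
  have hinj : ∀ ℓ i, Function.Injective ((Ly ℓ).φ i) := by
    intro ℓ i x y h
    have h5 : (⟨i, x⟩ : (i : Fin (Ly ℓ).r) × Fin ((Ly ℓ).n i)) = ⟨i, y⟩ := by
      apply (Ly ℓ).inj
      exact h
    simpa using h5
  have hch : ∀ ℓ i, ∃ (W : Finset (Vx k d N)) (S : Finset (Ed k d N))
      (ph : Vx k d N → Vx k d N) (ty : Bool) (sp : Prop),
      (sp → Pl X β lev (δ * D) ((Ly ℓ).Z i) ((Ly ℓ).φ i) W S ph ty) ∧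
      (¬ sp → (((Ly ℓ).Z i).edgeSet.ncard : ℝ) ≤ δ * D * ((Ly ℓ).n i : ℝ)) := by
    intro ℓ i
    rcases hLy ℓ i with h | ⟨W, S, h1, h2⟩
    · exact ⟨∅, ∅, id, true, False, fun h' => h'.elim, fun _ => h⟩
    · obtain ⟨ph, ty, h3⟩ := exists_pl ((Ly ℓ).hom i) (hinj ℓ i) h1 h2
      exact ⟨W, S, ph, ty, True, fun _ => h3, fun h' => (h' trivial).elim⟩
  choose W S ph ty sp hsp hnsp using hch
  have hdata : ∀ ℓ, ∃ f : Vx k d N → Cell k d N,
      (∀ i, sp ℓ i → ∀ e : Ed k d N, Sum.inl e.1 ∈ W ℓ i → Sum.inr e.2 ∈ W ℓ i →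
        ph ℓ i (Sum.inl e.1) = Sum.inl e.1 → ph ℓ i (Sum.inr e.2) = Sum.inr e.2 →
        lit f e = some (if ty ℓ i = true then (W ℓ i, true) else
          (W ℓ i ∩ Wset (lev (W ℓ i)) (zc e.2 (lev (W ℓ i))), false))) ∧
      (∀ (e : Ed k d N) (W' : Finset (Vx k d N)) (c : Bool), lit f e = some (W', c) →
        ∃ i, sp ℓ i ∧ Sum.inl e.1 ∈ W ℓ i ∧ Sum.inr e.2 ∈ W ℓ i ∧
          ph ℓ i (Sum.inl e.1) = Sum.inl e.1 ∧ ph ℓ i (Sum.inr e.2) = Sum.inr e.2 ∧ ty ℓ i = c ∧
          (c = true → W' = W ℓ i) ∧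
          (c = false → W' = W ℓ i ∩ Wset (lev (W ℓ i)) (zc e.2 (lev (W ℓ i))))) := by
    intro ℓ
    exact layer_data (Ly ℓ) (sp ℓ) (W ℓ) (S ℓ) (ph ℓ) (ty ℓ) (hsp ℓ)
  choose data hA hB using hdata
  have hmany := hβ.many data
  set Nn : Finset (Ed k d N) := X.filter fun e => ∀ ℓ W c, lit (data ℓ) e = some (W, c) →
    β W e = c → ∃ ℓ', lit (data ℓ') e = some (W, !c) with hNn
  -- the two families of exceptional edges
  set A : (ℓ : Fin t) × Fin (Ly ℓ).r → Finset (Ed k d N) := fun p =>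
    (Kov X ((Ly p.1).Z p.2) ((Ly p.1).φ p.2)).filter fun e => ¬ (sp p.1 p.2 ∧ e ∈ S p.1 p.2 ∧
      ph p.1 p.2 (Sum.inl e.1) = Sum.inl e.1 ∧ ph p.1 p.2 (Sum.inr e.2) = Sum.inr e.2) with hAdef
  set G : (ℓ : Fin t) × Fin (Ly ℓ).r → Fin t → Finset (Ed k d N) := fun p ℓ' =>
    if sp p.1 p.2 ∧ ty p.1 p.2 = false then
      Gset X (Ly ℓ') (sp ℓ') (W ℓ') (ph ℓ') (ty ℓ') (W p.1 p.2) (lev (W p.1 p.2)) else ∅ with hGdef
  have hAcard : ∀ p, ((A p).card : ℝ) ≤ (δ + ρ₁) * D * ((Ly p.1).n p.2 : ℝ) := by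
    intro p
    have hnn : (0 : ℝ) ≤ D * ((Ly p.1).n p.2 : ℝ) := by positivity
    by_cases hs : sp p.1 p.2
    · have h1 : A p = (Kov X ((Ly p.1).Z p.2) ((Ly p.1).φ p.2)).filter fun e =>
          ¬ (e ∈ S p.1 p.2 ∧ ph p.1 p.2 (Sum.inl e.1) = Sum.inl e.1 ∧
            ph p.1 p.2 (Sum.inr e.2) = Sum.inr e.2) := by
        rw [hAdef]
        simp only [hs, true_and]
      have h2 := kov_special (hsp p.1 p.2 hs)
      have h3 := hX.rigid (W p.1 p.2) (ph p.1 p.2) (hsp p.1 p.2 hs).injOn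
      rw [(hsp p.1 p.2 hs).card] at h3
      calc ((A p).card : ℝ) ≤ _ := by rw [h1]; exact Nat.cast_le.2 h2
        _ ≤ ρ₁ * D * ((Ly p.1).n p.2 : ℝ) := h3
        _ ≤ (δ + ρ₁) * D * ((Ly p.1).n p.2 : ℝ) := by nlinarith [mul_nonneg hδ hnn]
    · have h1 := hnsp p.1 p.2 hs
      have h2 := kov_harmless X ((Ly p.1).Z p.2) ((Ly p.1).φ p.2)
      calc ((A p).card : ℝ) ≤ ((Kov X ((Ly p.1).Z p.2) ((Ly p.1).φ p.2)).card : ℝ) :=
            Nat.cast_le.2 (card_filter_le _ _)
        _ ≤ (((Ly p.1).Z p.2).edgeSet.ncard : ℝ) := Nat.cast_le.2 h2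
        _ ≤ δ * D * ((Ly p.1).n p.2 : ℝ) := h1
        _ ≤ (δ + ρ₁) * D * ((Ly p.1).n p.2 : ℝ) := by nlinarith [mul_nonneg hρ₁ hnn]
  have hGcard : ∀ p ℓ', ((G p ℓ').card : ℝ) ≤ τ * (D * ((Ly p.1).n p.2 : ℝ)) := by
    intro p ℓ'
    by_cases hs : sp p.1 p.2 ∧ ty p.1 p.2 = false
    · have h1 : G p ℓ' = Gset X (Ly ℓ') (sp ℓ') (W ℓ') (ph ℓ') (ty ℓ') (W p.1 p.2)
          (lev (W p.1 p.2)) := by rw [hGdef]; simp only; rw [if_pos hs]
      rw [h1]
      have h2 := ((hsp p.1 p.2 hs.1).tyg hs.2).1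
      have h3 := hlev _ h2
      refine (gset_card (Ly ℓ') (sp ℓ') (W ℓ') (S ℓ') (ph ℓ') (ty ℓ') (hsp ℓ') hX.rigid
        hβ.quasi _ _ h3).trans ?_
      refine mul_le_mul_of_nonneg_left ?_ hτ
      have h4 := inn_card_le hD.le hX.toDegX (W p.1 p.2)
      rw [(hsp p.1 p.2 hs.1).card] at h4
      exact h4
    · have h1 : G p ℓ' = ∅ := by rw [hGdef]; simp only; rw [if_neg hs]
      rw [h1, card_empty]
      push_cast
      positivity
  have hsub : Nn ⊆ (univ.biUnion A) ∪ (univ.biUnion fun q : ((ℓ : Fin t) × Fin (Ly ℓ).r) × Fin t =>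
      G q.1 q.2) := by
    intro e he
    rw [hNn, mem_filter] at he
    obtain ⟨heX, hconf⟩ := he
    obtain ⟨ℓ, i, hK⟩ := hcov e heX
    rw [mem_union]
    by_cases hfix : sp ℓ i ∧ e ∈ S ℓ i ∧
      ph ℓ i (Sum.inl e.1) = Sum.inl e.1 ∧ ph ℓ i (Sum.inr e.2) = Sum.inr e.2
    · right
      rw [mem_biUnion]
      obtain ⟨hs, heS, hf1, hf2⟩ := hfix
      have hin := (hsp ℓ i hs).sub heS
      rw [inn, mem_filter] at hin
      have hl := hA ℓ i hs e hin.2.1 hin.2.2 hf1 hf2
      cases hty : ty ℓ i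
      · -- a g-part
        have hS := ((hsp ℓ i hs).tyg hty).2
        rw [hty] at hl
        simp only [Bool.false_eq_true, if_false] at hl
        rw [hS, mem_filter] at heS
        obtain ⟨ℓ', hl'⟩ := hconf ℓ _ _ hl heS.2
        obtain ⟨i', hs', h1, h2, h3, h4, h5, h6, -⟩ := hB ℓ' e _ _ hl'
        refine ⟨(⟨ℓ, i⟩, ℓ'), mem_univ _, ?_⟩
        rw [hGdef]
        simp only
        rw [if_pos ⟨hs, hty⟩, Gset, mem_filter]
        exact ⟨heX, i', hs', h5, (h6 rfl).symm, h1, h2, h3, h4⟩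
      · -- an h-part
        have hS := (hsp ℓ i hs).tyh hty
        rw [hty] at hl
        simp only [if_true] at hl
        rw [hS, mem_filter] at heS
        obtain ⟨ℓ', hl'⟩ := hconf ℓ _ _ hl heS.2
        obtain ⟨i', hs', h1, h2, h3, h4, h5, -, h6⟩ := hB ℓ' e _ _ hl'
        refine ⟨(⟨ℓ', i'⟩, ℓ), mem_univ _, ?_⟩
        rw [hGdef]
        simp only
        rw [if_pos ⟨hs', h5⟩, Gset, mem_filter]
        exact ⟨heX, i, hs, hty, h6 rfl, hin.2.1, hin.2.2, hf1, hf2⟩
    · left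
      rw [mem_biUnion]
      refine ⟨⟨ℓ, i⟩, mem_univ _, ?_⟩
      rw [hAdef]
      simp only [mem_filter]
      exact ⟨hK, hfix⟩
  -- the final count
  set n' : ℝ := (Fintype.card (Vx k d N) : ℝ) with hn'
  have hn'0 : 0 < n' := by rw [hn']; exact_mod_cast hn
  have hsum : ∑ p : (ℓ : Fin t) × Fin (Ly ℓ).r, ((Ly p.1).n p.2 : ℝ) ≤ t * n' := by
    rw [← univ_sigma_univ, sum_sigma]
    calc ∑ ℓ : Fin t, ∑ i : Fin (Ly ℓ).r, ((Ly ℓ).n i : ℝ) ≤ ∑ _ℓ : Fin t, n' := by
          refine sum_le_sum fun ℓ _ => ?_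
          have h1 := sum_n_le (Ly ℓ)
          rw [hn']
          exact_mod_cast h1
      _ = t * n' := by simp
  have h1 : (Nn.card : ℝ) ≤ (t * δ + t * ρ₁ + (t : ℝ) ^ 2 * τ) * (D * n') := by
    have h2 : Nn.card ≤ ∑ p, (A p).card +
        ∑ q : ((ℓ : Fin t) × Fin (Ly ℓ).r) × Fin t, (G q.1 q.2).card :=
      (card_le_card hsub).trans ((card_union_le _ _).trans
        (Nat.add_le_add card_biUnion_le card_biUnion_le))
    have h3 : (∑ p, (A p).card : ℝ) ≤ (δ + ρ₁) * D * (t * n') := by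
      calc (∑ p, (A p).card : ℝ) ≤ ∑ p : (ℓ : Fin t) × Fin (Ly ℓ).r,
            (δ + ρ₁) * D * ((Ly p.1).n p.2 : ℝ) := sum_le_sum fun p _ => hAcard p
        _ = (δ + ρ₁) * D * ∑ p : (ℓ : Fin t) × Fin (Ly ℓ).r, ((Ly p.1).n p.2 : ℝ) := by
            rw [mul_sum]
        _ ≤ (δ + ρ₁) * D * (t * n') := mul_le_mul_of_nonneg_left hsum (by positivity)
    have h4 : (∑ q : ((ℓ : Fin t) × Fin (Ly ℓ).r) × Fin t, (G q.1 q.2).card : ℝ) ≤
        t * (τ * (D * (t * n'))) := by
      rw [Fintype.sum_prod_type_right]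
      calc ∑ ℓ' : Fin t, ∑ p : (ℓ : Fin t) × Fin (Ly ℓ).r, ((G p ℓ').card : ℝ)
          ≤ ∑ _ℓ' : Fin t, τ * (D * (t * n')) := by
            refine sum_le_sum fun ℓ' _ => ?_
            calc ∑ p : (ℓ : Fin t) × Fin (Ly ℓ).r, ((G p ℓ').card : ℝ)
                ≤ ∑ p : (ℓ : Fin t) × Fin (Ly ℓ).r, τ * (D * ((Ly p.1).n p.2 : ℝ)) :=
                  sum_le_sum fun p _ => hGcard p ℓ'
              _ = τ * (D * ∑ p : (ℓ : Fin t) × Fin (Ly ℓ).r, ((Ly p.1).n p.2 : ℝ)) := by
                  rw [mul_sum, mul_sum]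
              _ ≤ τ * (D * (t * n')) := by
                  refine mul_le_mul_of_nonneg_left ?_ hτ
                  exact mul_le_mul_of_nonneg_left hsum hD.le
        _ = t * (τ * (D * (t * n'))) := by simp
    have h5 : (Nn.card : ℝ) ≤ (∑ p, (A p).card : ℝ) +
        (∑ q : ((ℓ : Fin t) × Fin (Ly ℓ).r) × Fin t, (G q.1 q.2).card : ℝ) := by
      exact_mod_cast h2
    calc (Nn.card : ℝ) ≤ _ := h5
      _ ≤ (δ + ρ₁) * D * (t * n') + t * (τ * (D * (t * n'))) := add_le_add h3 h4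
      _ = (t * δ + t * ρ₁ + (t : ℝ) ^ 2 * τ) * (D * n') := by ring
  have hDn : 0 < D * n' := mul_pos hD hn'0
  have h2 : (t * δ + t * ρ₁ + (t : ℝ) ^ 2 * τ) * (D * n') < 1 / 2 ^ (t + 8) * (D * n') :=
    mul_lt_mul_of_pos_right hnum hDn
  have h3 : 1 / 2 ^ (t + 8) * (D * n') = D * n' / 2 ^ (t + 8) := by ring
  rw [h3] at h2
  exact absurd (lt_of_le_of_lt (hmany.trans h1) h2) (lt_irrefl _)

end

end Pool.Agent.R928.LUF
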